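import Pool.Agent.K9h22.PmpE

/-!
# Antichains of free pmp actions of nonamenable groups

For every countable nonamenable group `Γ` and every standard Borel space `X` with a probability
measure `μ` without atoms, the class of free measure preserving actions of `Γ` on `(X, μ)`,
preordered by weak containment, has width exactly the cardinality of the continuum, and the
supremum in the definition of the width is attained: there is a family `a r`, `r` real, of free
actions such that `a r` is not weakly contained in `a s` for all `r ≠ s`.

The definitions (`Pool.Agent.K9h22.PmpDefs`): amenability (a finitely additive left invariant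
probability on all subsets), measure preserving actions, freeness, weak containment in the sense of
Kechris, antichains and the width.

Proof. Let `t` be in the interval `(0, 1/2)` and let `a t` be the disjoint union of two copies of
the Bernoulli shift on `{0,1}^Γ`, one of weight `t` and the other of weight `1 - t`. Since `Γ` is
nonamenable, the Bernoulli shift is strongly ergodic, therefore the measures of the invariant sets
of an action weakly contained in `a s` are in `{0, s, 1 - s, 1}`. The action `a t` has an invariant
set of measure `t`.
-/

set_option autoImplicit false

open MeasureTheory Pool.Agent.K9h22.Pmp

theorem Pool.Agent.Results.MP_651bcb_an.EveryNonamenableGroup.result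
    (Γ : Type) [Group Γ] [Countable Γ] (hΓ : ¬ Amenable Γ)
    (X : Type) [MeasurableSpace X] [StandardBorelSpace X]
    (μ : Measure X) [IsProbabilityMeasure μ] (hμ : ∀ x, μ {x} = 0) :
    width Γ μ = Cardinal.continuum ∧
      ∃ a : ℝ → PmpAction Γ μ, (∀ r, IsFree (a r)) ∧
        ∀ r s, r ≠ s → ¬ WeaklyContained (a r) (a s) :=
  ⟨width_eq Γ μ hΓ hμ, exists_family Γ μ hΓ hμ⟩
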